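import Pool.Agent.helper11.RPQ.SpecI

set_option autoImplicit false

namespace Pool.Agent.RPQ

open Pool.Agent.RS
open Pool.Agent.MS (BA BB st pf gk Dk amk)
open MeasureTheory Set

theorem RSM_le : ∀ᵐ x ∂UN, |x| ≤ 1 := by
  unfold UN
  refine Measure.ae_smul_measure ?_ _
  filter_upwards [ae_restrict_mem (μ := (volume : Measure ℝ)) (measurableSet_Icc (a := (-1 : ℝ)) (b := 1))] with x hx
  exact abs_le.2 hx

theorem RSM_meas (k J : ℕ) : Measurable (upd k J) := by
  rw [measurable_pi_iff]
  intro q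
  by_cases h : q.1 = k ∧ q.2 < J
  · have : (fun x : (ℕ × ℕ → ℝ) × (Fin J → ℝ) => upd k J x q) = fun x => x.2 ⟨q.2, h.2⟩ := by
      funext x
      unfold upd
      rw [dif_pos h]
    rw [this]
    fun_prop
  · have : (fun x : (ℕ × ℕ → ℝ) × (Fin J → ℝ) => upd k J x q) = fun x => x.1 q := by
      funext x
      unfold upd
      rw [dif_neg h]
    rw [this]
    fun_prop

theorem RSM_pre (k J : ℕ) (s : Finset (ℕ × ℕ)) (t : ℕ × ℕ → Set ℝ) :
    upd k J ⁻¹' (Set.pi s t) = (Set.pi (s.filter fun q => ¬ (q.1 = k ∧ q.2 < J)) t) ×ˢ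
      (Set.pi univ fun j : Fin J => if (k, (j : ℕ)) ∈ s then t (k, (j : ℕ)) else univ) := by
  ext ⟨ζ, ξ⟩
  simp only [mem_preimage, Set.mem_pi, Finset.mem_coe, mem_prod, Finset.mem_filter, mem_univ, true_imp_iff]
  constructor
  · intro h
    refine ⟨fun q hq => ?_, fun j => ?_⟩
    · have h1 := h q hq.1
      unfold upd at h1
      rwa [dif_neg hq.2] at h1
    · split_ifs with hj
      · have h1 := h _ hj
        unfold upd at h1
        rw [dif_pos ⟨rfl, j.2⟩] at h1
        exact h1
      · trivial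
  · rintro ⟨h1, h2⟩ q hq
    unfold upd
    by_cases hc : q.1 = k ∧ q.2 < J
    · rw [dif_pos hc]
      have h3 := h2 ⟨q.2, hc.2⟩
      have e : (k, q.2) = q := by rw [← hc.1]
      simp only [e] at h3
      rw [if_pos hq] at h3
      exact h3
    · rw [dif_neg hc]
      exact h1 q ⟨hq, hc⟩

theorem RSM_proof : RSM_stmt := by
  have hP : IsProbabilityMeasure PN := by
    unfold PN
    infer_instance
  refine ⟨hP, ?_, ?_⟩
  · rw [ae_all_iff]
    intro q
    exact (measurePreserving_eval_infinitePi (fun _ : ℕ × ℕ => UN) q).quasiMeasurePreserving.ae RSM_le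
  · intro k J
    refine ⟨RSM_meas k J, ?_⟩
    unfold PN
    refine Measure.eq_infinitePi _ fun s t ht => ?_
    rw [Measure.map_apply (RSM_meas k J) (MeasurableSet.pi s.countable_toSet fun i _ => ht i), RSM_pre]
    have : SFinite (PJ J) := by
      unfold PJ
      have : IsProbabilityMeasure ((2 : ENNReal)⁻¹ • (volume : Measure ℝ).restrict (Icc (-1) 1)) := UN_prob
      infer_instance
    rw [Measure.prod_prod, Measure.infinitePi_pi _ (fun i _ => ht i)]
    have h1 : PJ J (Set.pi univ fun j : Fin J => if (k, (j : ℕ)) ∈ s then t (k, (j : ℕ)) else univ) =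
        ∏ q ∈ s.filter (fun q => q.1 = k ∧ q.2 < J), UN (t q) := by
      have : IsProbabilityMeasure ((2 : ENNReal)⁻¹ • (volume : Measure ℝ).restrict (Icc (-1) 1)) := UN_prob
      have h2 : PJ J = Measure.pi fun _ : Fin J => UN := rfl
      rw [h2, Measure.pi_pi]
      have h3 : ∀ j : Fin J, UN (if (k, (j : ℕ)) ∈ s then t (k, (j : ℕ)) else univ) =
          if (k, (j : ℕ)) ∈ s then UN (t (k, (j : ℕ))) else 1 := by
        intro j
        split_ifs
        · rfl
        · exact measure_univ
      simp only [h3]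
      rw [← Finset.prod_filter]
      refine Finset.prod_bij (fun j _ => (k, (j : ℕ))) ?_ ?_ ?_ ?_
      · intro j hj
        rw [Finset.mem_filter] at hj ⊢
        exact ⟨hj.2, rfl, j.2⟩
      · intro i _ j _ h
        exact Fin.ext (congrArg Prod.snd h)
      · rintro ⟨a, b⟩ hq
        rw [Finset.mem_filter] at hq
        obtain ⟨hs, ha, hb⟩ := hq
        simp only at ha hb
        subst ha
        exact ⟨⟨b, hb⟩, Finset.mem_filter.2 ⟨Finset.mem_univ _, hs⟩, rfl⟩
      · intro j _
        rfl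
    rw [h1, mul_comm, Finset.prod_filter_mul_prod_filter_not]

end Pool.Agent.RPQ
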